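import Mathlib
import Pool.Agent.Lib.GHDRace.VC

/-!
# A packing bound for Boolean matrices of small VC dimension
-/

open Finset

namespace GHDXor

open GHDRace

/-- **Sauer-Shelah** for a matrix with distinct rows and `m` columns. -/
theorem sauer_inj {α : Type*} [Fintype α] [DecidableEq α] (m d : ℕ) (M : α → Fin m → Bool)
    (hinj : Function.Injective M) (h : ∀ S : Finset (Fin m), Shat M S → S.card ≤ d) :
    Fintype.card α ≤ ∑ i ∈ Finset.range (d + 1), m.choose i := by
  classical
  let g : α → Finset (Fin m) := fun a => univ.filter fun i => M a i = true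
  have hg : Function.Injective g := by
    intro a a' haa
    apply hinj
    funext i
    have h1 := Finset.ext_iff.1 haa i
    simp only [g, mem_filter, mem_univ, true_and] at h1
    cases h2 : M a i <;> cases h3 : M a' i <;> simp_all
  let 𝒜 : Finset (Finset (Fin m)) := univ.image g
  have h1 : 𝒜.card = Fintype.card α := by
    rw [Finset.card_image_of_injective _ hg, Finset.card_univ]
  have h3 : 𝒜.vcDim ≤ d := by
    refine Finset.sup_le fun s hs => ?_
    rw [Finset.mem_shatterer] at hs
    refine h s ?_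
    intro B hB
    obtain ⟨t, ht, hts⟩ := hs hB
    obtain ⟨x, _, rfl⟩ := Finset.mem_image.1 ht
    refine ⟨x, fun y hy => ?_⟩
    have h6 := Finset.ext_iff.1 hts y
    simp only [g, mem_inter, mem_filter, mem_univ, true_and, hy] at h6
    exact h6
  have h4 := (𝒜.card_le_card_shatterer.trans 𝒜.card_shatterer_le_sum_vcDim)
  have h5 : ∑ k ∈ Finset.Iic 𝒜.vcDim, (Fintype.card (Fin m)).choose k ≤
      ∑ k ∈ Finset.Iic d, (Fintype.card (Fin m)).choose k :=
    Finset.sum_le_sum_of_subset (Finset.Iic_subset_Iic.2 h3)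
  rw [Fintype.card_fin] at h4 h5
  have h6 : Finset.Iic d = Finset.range (d + 1) := by
    ext i; simp [Nat.lt_succ_iff]
  rw [h6] at h5
  rw [h1] at h4
  exact h4.trans h5

/-- the binomial sum for `d 2^(j-2)` points -/
theorem choose_sum_lt (d j : ℕ) (hd : 1 ≤ d) (hj : 2 ≤ j) :
    ∑ i ∈ Finset.range (d + 1), (d * 2 ^ (j - 2)).choose i < 2 ^ (j * d) := by
  obtain ⟨l, rfl⟩ := Nat.exists_eq_add_of_le hj
  have hl : 2 + l - 2 = l := by omega
  rw [hl]
  set m := d * 2 ^ l with hm
  have hdm : d ≤ m := Nat.le_mul_of_pos_right d (by positivity)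
  have hd0 : (0 : ℝ) < d := by exact_mod_cast hd
  have hm0 : (0 : ℝ) < m := by exact_mod_cast (lt_of_lt_of_le hd hdm)
  have hmd : (m : ℝ) / d = 2 ^ l := by
    rw [hm]; push_cast; field_simp
  have h1 : ((∑ i ∈ Finset.range (d + 1), m.choose i : ℕ) : ℝ) ≤
      ((m : ℝ) / d) ^ d * (1 + (d : ℝ) / m) ^ m := by
    push_cast
    calc ∑ i ∈ Finset.range (d + 1), (m.choose i : ℝ)
        ≤ ∑ i ∈ Finset.range (d + 1), ((m : ℝ) / d) ^ d * (((d : ℝ) / m) ^ i * m.choose i) := by
          refine Finset.sum_le_sum fun i hi => ?_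
          have hi' : i ≤ d := Nat.lt_succ_iff.1 (Finset.mem_range.1 hi)
          obtain ⟨e, he⟩ := Nat.exists_eq_add_of_le hi'
          have h2 : ((m : ℝ) / d) ^ d * (((d : ℝ) / m) ^ i) = ((m : ℝ) / d) ^ e := by
            have : ((m : ℝ) / d) ^ d = ((m : ℝ) / d) ^ i * ((m : ℝ) / d) ^ e := by
              rw [← pow_add, ← he]
            rw [this]
            have h3 : ((m : ℝ) / d) ^ i * ((d : ℝ) / m) ^ i = 1 := by
              rw [← mul_pow]
              have : (m : ℝ) / d * ((d : ℝ) / m) = 1 := by field_simp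
              rw [this, one_pow]
            linear_combination ((m : ℝ) / d) ^ e * h3
          have h4 : (1 : ℝ) ≤ ((m : ℝ) / d) ^ e := by
            refine one_le_pow₀ ?_
            rw [le_div_iff₀ hd0, one_mul]
            exact_mod_cast hdm
          rw [← mul_assoc, h2]
          exact le_mul_of_one_le_left (by positivity) h4
      _ = ((m : ℝ) / d) ^ d * ∑ i ∈ Finset.range (d + 1), (((d : ℝ) / m) ^ i * m.choose i) := by
          rw [Finset.mul_sum]
      _ ≤ ((m : ℝ) / d) ^ d * ∑ i ∈ Finset.range (m + 1), (((d : ℝ) / m) ^ i * m.choose i) := by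
          refine mul_le_mul_of_nonneg_left ?_ (by positivity)
          refine Finset.sum_le_sum_of_subset_of_nonneg ?_ ?_
          · exact Finset.range_subset_range.2 (by omega)
          · intro i _ _; positivity
      _ = ((m : ℝ) / d) ^ d * (1 + (d : ℝ) / m) ^ m := by
          congr 1
          rw [add_comm (1 : ℝ), add_pow]
          refine Finset.sum_congr rfl fun i _ => ?_
          rw [one_pow, mul_one]
  have h2 : (1 + (d : ℝ) / m) ^ m ≤ Real.exp d := by
    have h3 : 1 + (d : ℝ) / m ≤ Real.exp ((d : ℝ) / m) := by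
      rw [add_comm]; exact Real.add_one_le_exp _
    calc (1 + (d : ℝ) / m) ^ m ≤ (Real.exp ((d : ℝ) / m)) ^ m :=
          pow_le_pow_left₀ (by positivity) h3 m
      _ = Real.exp d := by
          rw [← Real.exp_nat_mul]
          congr 1
          field_simp
  have h3 : Real.exp d < 4 ^ d := by
    have : Real.exp (d : ℝ) = (Real.exp 1) ^ d := by
      rw [← Real.exp_nat_mul, mul_one]
    rw [this]
    refine pow_lt_pow_left₀ ?_ (Real.exp_pos 1).le (by omega)
    exact lt_trans Real.exp_one_lt_d9 (by norm_num)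
  have h4 : ((∑ i ∈ Finset.range (d + 1), m.choose i : ℕ) : ℝ) < ((2 ^ ((2 + l) * d) : ℕ) : ℝ) := by
    have h5 : (2 : ℝ) ^ ((2 + l) * d) = (2 ^ l) ^ d * 4 ^ d := by
      rw [pow_mul, pow_add, mul_pow, mul_comm]; norm_num
    push_cast
    push_cast at h1
    rw [h5]
    rw [hmd] at h1
    calc _ ≤ _ := h1
      _ ≤ (2 ^ l) ^ d * Real.exp d := mul_le_mul_of_nonneg_left h2 (by positivity)
      _ < (2 ^ l) ^ d * 4 ^ d := mul_lt_mul_of_pos_left h3 (by positivity)
  exact_mod_cast h4

/-- **Packing**: more rows than the Sauer bound for `m` columns, then two rows are close. -/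
theorem pack {α β : Type*} [Fintype α] [Fintype β] [DecidableEq α] [DecidableEq β] [Nonempty β]
    (M : α → β → Bool) (m d : ℕ) (hd : ∀ S : Finset β, Shat M S → S.card ≤ d)
    (hN : ∑ i ∈ Finset.range (d + 1), m.choose i < Fintype.card α) :
    ∃ a a' : α, a ≠ a' ∧
      ((univ.filter fun y => M a y ≠ M a' y).card : ℝ) * m ≤
        2 * Real.log (Fintype.card α) * Fintype.card β := by
  classical
  by_contra hcon
  push Not at hcon
  set N := Fintype.card α with hNdef
  set B := Fintype.card β with hB
  have hB0 : (0 : ℝ) < B := by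
    have : 0 < B := Fintype.card_pos
    exact_mod_cast this
  have hN1 : 1 ≤ N := by omega
  have hN0 : (0 : ℝ) < N := by exact_mod_cast hN1
  -- collisions
  let Bad : α × α → Finset (Fin m → β) := fun p =>
    Fintype.piFinset fun _ => univ.filter fun y => M p.1 y = M p.2 y
  have hBad : ∀ p ∈ (univ : Finset α).offDiag, ((Bad p).card : ℝ) ≤ (B : ℝ) ^ m / N ^ 2 := by
    rintro ⟨a, a'⟩ hp
    have hne : a ≠ a' := (Finset.mem_offDiag.1 hp).2.2
    have h1 := hcon a a' hne
    set D : ℕ := (univ.filter fun y => M a y ≠ M a' y).card with hD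
    have h2 : (univ.filter fun y => M a y = M a' y).card + D = B := by
      rw [hD, hB, ← Finset.card_univ]
      exact Finset.card_filter_add_card_filter_not _
    have h3 : ((Bad (a, a')).card : ℝ) = ((B : ℝ) - D) ^ m := by
      have h4 : ((univ.filter fun y => M a y = M a' y).card : ℝ) = (B : ℝ) - D := by
        rw [← h2]; push_cast; ring
      simp only [Bad, Fintype.card_piFinset, Finset.prod_const, Finset.card_univ,
        Fintype.card_fin]
      push_cast
      rw [h4]
    rw [h3]
    have h5 : (0 : ℝ) ≤ (B : ℝ) - D := by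
      have : D ≤ B := by omega
      have : (D : ℝ) ≤ B := by exact_mod_cast this
      linarith
    have h6 : (B : ℝ) - D ≤ B * Real.exp (-(D / B)) := by
      have h7 := Real.add_one_le_exp (-((D : ℝ) / B))
      have h8 : (B : ℝ) - D = B * (-((D : ℝ) / B) + 1) := by field_simp; ring
      rw [h8]
      exact mul_le_mul_of_nonneg_left h7 hB0.le
    calc ((B : ℝ) - D) ^ m ≤ (B * Real.exp (-(D / B))) ^ m := pow_le_pow_left₀ h5 h6 m
      _ = (B : ℝ) ^ m * Real.exp (-((D * m) / B)) := by
          rw [mul_pow, ← Real.exp_nat_mul]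
          congr 2
          ring
      _ ≤ (B : ℝ) ^ m * Real.exp (-(2 * Real.log N)) := by
          refine mul_le_mul_of_nonneg_left (Real.exp_le_exp.2 (neg_le_neg ?_)) (by positivity)
          rw [le_div_iff₀ hB0]
          exact h1.le
      _ = (B : ℝ) ^ m / N ^ 2 := by
          rw [Real.exp_neg, div_eq_mul_inv]
          congr 2
          rw [two_mul, Real.exp_add, Real.exp_log hN0, sq]
  -- a separating sequence
  have hex : ∃ s : Fin m → β, ∀ a a' : α, a ≠ a' → ∃ i, M a (s i) ≠ M a' (s i) := by
    by_contra hall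
    push Not at hall
    have h1 : (univ : Finset (Fin m → β)) ⊆ (univ : Finset α).offDiag.biUnion Bad := by
      intro s _
      obtain ⟨a, a', hne, hs⟩ := hall s
      refine Finset.mem_biUnion.2 ⟨(a, a'), by simp [hne], ?_⟩
      simp only [Bad, Fintype.mem_piFinset, mem_filter, mem_univ, true_and]
      exact hs
    have h2 := (Finset.card_le_card h1).trans Finset.card_biUnion_le
    have h3 : ((univ : Finset (Fin m → β)).card : ℝ) ≤
        ∑ p ∈ (univ : Finset α).offDiag, ((Bad p).card : ℝ) := by exact_mod_cast h2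
    have h4 : ((univ : Finset (Fin m → β)).card : ℝ) = (B : ℝ) ^ m := by
      rw [Finset.card_univ, Fintype.card_fun, Fintype.card_fin]; push_cast; rfl
    have h5 := h3.trans (Finset.sum_le_sum hBad)
    rw [h4, Finset.sum_const, nsmul_eq_mul, Finset.offDiag_card, Finset.card_univ] at h5
    have h6 : (((Fintype.card α * Fintype.card α - Fintype.card α : ℕ)) : ℝ) = N ^ 2 - N := by
      rw [Nat.cast_sub (Nat.le_mul_self _)]
      push_cast; ring
    rw [h6] at h5
    have h7 : (0 : ℝ) < (B : ℝ) ^ m / N ^ 2 := by positivity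
    have h8 : ((N : ℝ) ^ 2 - N) * ((B : ℝ) ^ m / N ^ 2) < N ^ 2 * ((B : ℝ) ^ m / N ^ 2) :=
      mul_lt_mul_of_pos_right (by linarith) h7
    have h9 : (N : ℝ) ^ 2 * ((B : ℝ) ^ m / N ^ 2) = (B : ℝ) ^ m := by field_simp
    linarith
  obtain ⟨s, hs⟩ := hex
  have h10 := sauer_inj m d (fun a i => M a (s i)) (by
    intro a a' haa
    by_contra hne
    obtain ⟨i, hi⟩ := hs a a' hne
    exact hi (congrFun haa i)) (by
    intro S hS
    have hinj : Set.InjOn s (S : Set (Fin m)) := by
      intro i hi i' hi' hii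
      by_contra hne
      obtain ⟨x, hx⟩ := hS {i} (by simpa using hi)
      have e1 : M x (s i) = true ↔ i ∈ ({i} : Finset (Fin m)) := hx i hi
      have e2 : M x (s i') = true ↔ i' ∈ ({i} : Finset (Fin m)) := hx i' hi'
      rw [hii] at e1
      rw [e1] at e2
      simp only [mem_singleton, true_iff] at e2
      exact hne e2.symm
    have h11 : Shat M (S.image s) := by
      intro C hC
      obtain ⟨x, hx⟩ := hS (S.filter fun i => s i ∈ C) (Finset.filter_subset _ _)
      refine ⟨x, fun y hy => ?_⟩
      obtain ⟨i, hi, rfl⟩ := Finset.mem_image.1 hy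
      have e3 : M x (s i) = true ↔ i ∈ S.filter fun i => s i ∈ C := hx i hi
      rw [e3]
      simp [hi]
    have h12 := hd _ h11
    rwa [Finset.card_image_of_injOn hinj] at h12)
  omega

end GHDXor
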