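import Mathlib
import Pool.Agent.Lib.GHDXor.Pack

/-!
# Averages over subcubes: dropping one coordinate
-/

open Finset

namespace GHDXor

open GHDRace

variable {n : ℕ}

/-- the subcube `b + G_J` -/
def cos (b : Fin n → ZMod 2) (J : Finset (Fin n)) : Finset (Fin n → ZMod 2) :=
  univ.filter fun x => ∀ i, i ∉ J → x i = b i

lemma mem_cos {b x : Fin n → ZMod 2} {J : Finset (Fin n)} :
    x ∈ cos b J ↔ ∀ i, i ∉ J → x i = b i := by
  simp [cos]

lemma card_cos (b : Fin n → ZMod 2) (J : Finset (Fin n)) : (cos b J).card = 2 ^ J.card := by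
  classical
  have h : cos b J = Fintype.piFinset fun i => if i ∈ J then (univ : Finset (ZMod 2)) else {b i} := by
    ext x
    rw [mem_cos, Fintype.mem_piFinset]
    refine forall_congr' fun i => ?_
    by_cases hi : i ∈ J <;> simp [hi]
  rw [h, Fintype.card_piFinset]
  have h2 : ∀ i : Fin n, ((if i ∈ J then (univ : Finset (ZMod 2)) else {b i}).card) =
      if i ∈ J then 2 else 1 := by
    intro i
    by_cases hi : i ∈ J
    · simp only [hi, if_true]; rfl
    · simp [hi]
  rw [Finset.prod_congr rfl fun i _ => h2 i, Finset.prod_ite_mem]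
  simp

/-- a popular coset -/
lemma popular (W : Finset (Fin n → ZMod 2)) (c : ℕ) (hW : 2 ^ n ≤ 2 ^ c * W.card)
    (J : Finset (Fin n)) : ∃ u, 2 ^ J.card ≤ 2 ^ c * (W.filter fun v => v ∈ cos u J).card := by
  classical
  by_contra hcon
  push Not at hcon
  have h1 : ∑ u : Fin n → ZMod 2, 2 ^ c * (W.filter fun v => v ∈ cos u J).card <
      ∑ _u : Fin n → ZMod 2, 2 ^ J.card :=
    Finset.sum_lt_sum_of_nonempty univ_nonempty fun u _ => hcon u
  have h2 : ∑ u : Fin n → ZMod 2, (W.filter fun v => v ∈ cos u J).card = W.card * 2 ^ J.card := by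
    simp_rw [Finset.card_filter]
    rw [Finset.sum_comm]
    have h3 : ∀ v : Fin n → ZMod 2, ∑ u : Fin n → ZMod 2, (if v ∈ cos u J then 1 else 0) =
        2 ^ J.card := by
      intro v
      rw [← Finset.card_filter, ← card_cos v J]
      congr 1
      ext u
      simp only [mem_filter, mem_univ, true_and, mem_cos]
      exact forall_congr' fun i => ⟨fun h hi => (h hi).symm, fun h hi => (h hi).symm⟩
    rw [Finset.sum_congr rfl fun v _ => h3 v, Finset.sum_const, smul_eq_mul]
  rw [← Finset.mul_sum, h2, Finset.sum_const, Finset.card_univ, Fintype.card_fun,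
    Fintype.card_fin, ZMod.card, smul_eq_mul] at h1
  have h4 := Nat.mul_le_mul_right (2 ^ J.card) hW
  have h5 : 2 ^ c * W.card * 2 ^ J.card = 2 ^ c * (W.card * 2 ^ J.card) := by ring
  omega

lemma z_add_self (a : ZMod 2) : a + a = 0 := by
  revert a; decide

lemma add_self' (x : Fin n → ZMod 2) : x + x = 0 := by
  funext i; exact z_add_self _

lemma split (h : (Fin n → ZMod 2) → ℝ) (b z : Fin n → ZMod 2) (J : Finset (Fin n)) (t : Fin n)
    (hz : ∀ i, i ∉ J → z i = 0) (hzt : z t = 1) (ht : t ∈ J) :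
    ∑ x ∈ cos b J, h x = ∑ x ∈ cos b (J.erase t), (h x + h (x + z)) := by
  classical
  rw [← Finset.sum_filter_add_sum_filter_not (cos b J) (fun x => x t = b t),
    Finset.sum_add_distrib]
  have h1 : (cos b J).filter (fun x => x t = b t) = cos b (J.erase t) := by
    ext x
    simp only [mem_filter, mem_cos, mem_erase, not_and_or, not_not]
    constructor
    · rintro ⟨h1, h2⟩ i hi
      rcases hi with rfl | hi
      · exact h2
      · exact h1 i hi
    · intro h1
      exact ⟨fun i hi => h1 i (Or.inr hi), h1 t (Or.inl rfl)⟩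
  rw [h1]
  congr 1
  refine Finset.sum_bij' (fun x _ => x + z) (fun x _ => x + z) ?_ ?_ ?_ ?_ ?_
  · intro x hx
    simp only [mem_filter, mem_cos] at hx
    rw [mem_cos]
    intro i hi
    simp only [mem_erase, not_and_or, not_not] at hi
    rcases hi with rfl | hi
    · rw [Pi.add_apply, hzt]
      have h2 := hx.2
      revert h2
      generalize x i = p
      generalize b i = q
      revert p q
      decide
    · rw [Pi.add_apply, hz i hi, add_zero]
      exact hx.1 i hi
  · intro x hx
    rw [mem_cos] at hx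
    simp only [mem_filter, mem_cos]
    refine ⟨fun i hi => ?_, ?_⟩
    · rw [Pi.add_apply, hz i hi, add_zero]
      exact hx i (by simp [hi])
    · rw [Pi.add_apply, hzt, hx t (by simp)]
      generalize b t = q
      revert q
      decide
  · intro x _
    rw [add_assoc, add_self', add_zero]
  · intro x _
    rw [add_assoc, add_self', add_zero]
  · intro x _
    simp only [add_assoc, add_self', add_zero]

/-- the sign of a Boolean -/
def sg (v : Bool) : ℝ := if v then 1 else -1

lemma abs_sg_sub (v w : Bool) : |sg v - sg w| = if v ≠ w then 2 else 0 := by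
  cases v <;> cases w <;> norm_num [sg]

/-- the average of `f` over `b + G_J` -/
noncomputable def P (f : (Fin n → ZMod 2) → Bool) (b : Fin n → ZMod 2) (J : Finset (Fin n)) : ℝ :=
  (∑ x ∈ cos b J, sg (f x)) / 2 ^ J.card

/-- **The step**: one coordinate can be dropped at a small cost. -/
theorem step (f : (Fin n → ZMod 2) → Bool) (W : Finset (Fin n → ZMod 2))
    (c d : ℕ) (hW : 2 ^ n ≤ 2 ^ c * W.card) (hd1 : 1 ≤ d)
    (hd : ∀ S : Finset (Fin n → ZMod 2),
      (∀ B ⊆ S, ∃ v ∈ W, ∀ y ∈ S, (f (v + y) = true ↔ y ∈ B)) → S.card ≤ d)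
    (J : Finset (Fin n)) (j : ℕ) (hj : 2 ≤ j) (hjd : j * d + c ≤ J.card) (b : Fin n → ZMod 2) :
    ∃ t ∈ J, |P f b (J.erase t) - P f b J| ≤ 8 * Real.log 2 * j / 2 ^ j := by
  classical
  obtain ⟨u, hu⟩ := popular W c hW J
  have h1 : 2 ^ (j * d) ≤ (W.filter fun v => v ∈ cos u J).card := by
    have h2 : 2 ^ c * 2 ^ (j * d) ≤ 2 ^ c * (W.filter fun v => v ∈ cos u J).card := by
      refine le_trans ?_ hu
      rw [← pow_add]
      exact Nat.pow_le_pow_right (by norm_num) (by omega)
    exact Nat.le_of_mul_le_mul_left h2 (by positivity)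
  obtain ⟨W0, hW0, hW0c⟩ := Finset.exists_subset_card_eq h1
  have hne : (cos (u + b) J).Nonempty := ⟨u + b, by simp [mem_cos]⟩
  haveI : Nonempty {y // y ∈ cos (u + b) J} := ⟨⟨hne.choose, hne.choose_spec⟩⟩
  obtain ⟨a, a', haa, hpack⟩ := pack
    (fun (a : {x // x ∈ W0}) (y : {y // y ∈ cos (u + b) J}) => f (a.1 + y.1))
    (d * 2 ^ (j - 2)) d (by
      intro S hS
      have h5 := hd (S.map (Function.Embedding.subtype _)) (by
        intro B hB
        obtain ⟨x, hx⟩ := hS (S.filter fun y => y.1 ∈ B) (Finset.filter_subset _ _)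
        refine ⟨x.1, (Finset.mem_filter.1 (hW0 x.2)).1, fun y hy => ?_⟩
        obtain ⟨y', hy', rfl⟩ := Finset.mem_map.1 hy
        have h4 : f (x.1 + y'.1) = true ↔ y' ∈ S.filter fun y => y.1 ∈ B := hx y' hy'
        simp only [Function.Embedding.subtype_apply]
        rw [h4]
        simp [hy'])
      rwa [Finset.card_map] at h5)
    (by rw [Fintype.card_coe, hW0c]; exact choose_sum_lt d j hd1 hj)
  rw [Fintype.card_coe, hW0c, Fintype.card_coe, card_cos] at hpack
  have ha : a.1 ∈ W ∧ a.1 ∈ cos u J := Finset.mem_filter.1 (hW0 a.2)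
  have ha' : a'.1 ∈ W ∧ a'.1 ∈ cos u J := Finset.mem_filter.1 (hW0 a'.2)
  set z : Fin n → ZMod 2 := a.1 + a'.1 with hz
  have hzJ : ∀ i, i ∉ J → z i = 0 := by
    intro i hi
    rw [hz, Pi.add_apply, mem_cos.1 ha.2 i hi, mem_cos.1 ha'.2 i hi, z_add_self]
  have hz0 : ∃ t, z t = 1 := by
    by_contra hall
    push Not at hall
    apply haa
    apply Subtype.ext
    funext i
    have h3 := hall i
    rw [hz, Pi.add_apply] at h3
    revert h3
    generalize a.1 i = p
    generalize a'.1 i = q
    revert p q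
    decide
  obtain ⟨t, hzt⟩ := hz0
  have htJ : t ∈ J := by
    by_contra h
    rw [hzJ t h] at hzt
    exact absurd hzt (by decide)
  refine ⟨t, htJ, ?_⟩
  -- the number of disagreements
  set D : ℕ := ((cos b J).filter fun x => f x ≠ f (x + z)).card with hD
  have hDle : D ≤ (univ.filter fun y : {y // y ∈ cos (u + b) J} =>
      f (a.1 + y.1) ≠ f (a'.1 + y.1)).card := by
    refine Finset.card_le_card_of_injOn
      (fun x => if hx : x ∈ cos b J then ⟨a.1 + x, by
        rw [mem_cos] at hx ⊢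
        intro i hi
        rw [Pi.add_apply, Pi.add_apply, mem_cos.1 ha.2 i hi, hx i hi]⟩
        else ⟨hne.choose, hne.choose_spec⟩) ?_ ?_
    · intro x hx
      have hx' := Finset.mem_filter.1 (Finset.mem_coe.1 hx)
      simp only [hx'.1, dif_pos, Finset.coe_filter, mem_univ, true_and, Set.mem_setOf_eq]
      rw [← add_assoc, add_self', zero_add]
      have h3 : a'.1 + (a.1 + x) = x + z := by
        rw [hz]; abel
      rw [h3]
      exact hx'.2
    · intro x hx x' hx' hxx
      have e1 := (Finset.mem_filter.1 (Finset.mem_coe.1 hx)).1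
      have e2 := (Finset.mem_filter.1 (Finset.mem_coe.1 hx')).1
      simp only [e1, e2, dif_pos, Subtype.mk.injEq] at hxx
      exact add_left_cancel hxx
  have hDr : (D : ℝ) ≤ 8 * Real.log 2 * j / 2 ^ j * 2 ^ J.card := by
    have h3 : (D : ℝ) * (d * 2 ^ (j - 2) : ℕ) ≤
        2 * Real.log ((2 ^ (j * d) : ℕ) : ℝ) * ((2 ^ J.card : ℕ) : ℝ) :=
      le_trans (mul_le_mul_of_nonneg_right (by exact_mod_cast hDle) (by positivity)) hpack
    have hd0 : (0 : ℝ) < d := by exact_mod_cast hd1
    have h4 : (2 : ℝ) ^ j = 4 * 2 ^ (j - 2) := by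
      obtain ⟨l, rfl⟩ := Nat.exists_eq_add_of_le hj
      have hl : 2 + l - 2 = l := by omega
      rw [hl, pow_add]; norm_num
    push_cast at h3
    rw [Real.log_pow] at h3
    push_cast at h3
    have h5 : (D : ℝ) * 2 ^ (j - 2) ≤ 2 * (j * Real.log 2) * 2 ^ J.card := by
      refine le_of_mul_le_mul_right ?_ hd0
      calc (D : ℝ) * 2 ^ (j - 2) * d = D * (d * 2 ^ (j - 2)) := by ring
        _ ≤ _ := h3
        _ = 2 * (j * Real.log 2) * 2 ^ J.card * d := by ring
    have h6 : (0 : ℝ) < 2 ^ (j - 2) := by positivity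
    rw [h4]
    have h7 : 8 * Real.log 2 * j / (4 * 2 ^ (j - 2)) * 2 ^ J.card =
        (2 * (j * Real.log 2) * 2 ^ J.card) / 2 ^ (j - 2) := by
      field_simp; ring
    rw [h7, le_div_iff₀ h6]
    exact h5
  -- the two halves
  have hsum := split (fun x => sg (f x)) b z J t hzJ hzt htJ
  have hcount := split (fun x => if f x ≠ f (x + z) then (1 : ℝ) else 0) b z J t hzJ hzt htJ
  have hDs : (D : ℝ) = ∑ x ∈ cos b J, (if f x ≠ f (x + z) then (1 : ℝ) else 0) := by
    rw [hD, Finset.card_filter]; push_cast; rfl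
  have hcount2 : (D : ℝ) = ∑ x ∈ cos b (J.erase t), |sg (f x) - sg (f (x + z))| := by
    rw [hDs, hcount]
    refine Finset.sum_congr rfl fun x _ => ?_
    rw [abs_sg_sub]
    have h3 : x + z + z = x := by rw [add_assoc, add_self', add_zero]
    simp only [h3]
    by_cases h4 : f x = f (x + z)
    · simp [h4]
    · have h5 : ¬ f (x + z) = f x := fun h => h4 h.symm
      simp only [ne_eq, h4, h5, not_false_eq_true, if_true]
      norm_num
  have hcard : (2 : ℝ) ^ J.card = 2 * 2 ^ (J.erase t).card := by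
    rw [← Finset.card_erase_add_one htJ, pow_succ]; ring
  have hdiff : P f b (J.erase t) - P f b J =
      (∑ x ∈ cos b (J.erase t), (sg (f x) - sg (f (x + z)))) / 2 ^ J.card := by
    unfold P
    rw [hsum, Finset.sum_add_distrib, Finset.sum_sub_distrib, hcard]
    field_simp
    ring
  rw [hdiff, abs_div, abs_of_pos (by positivity : (0 : ℝ) < 2 ^ J.card),
    div_le_iff₀ (by positivity)]
  calc |∑ x ∈ cos b (J.erase t), (sg (f x) - sg (f (x + z)))|
      ≤ ∑ x ∈ cos b (J.erase t), |sg (f x) - sg (f (x + z))| := Finset.abs_sum_le_sum_abs _ _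
    _ = D := hcount2.symm
    _ ≤ _ := hDr

end GHDXor
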