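import Mathlib
import Pool.Agent.Lib.GHDXor.Step

/-!
# The chain of subcubes
-/

open Finset

namespace GHDXor

open GHDRace

variable {n : ℕ}

lemma xor_aux (a b : Bool) (p : ZMod 2) :
    (xor b (decide ((if xor a b then (1 : ZMod 2) else 0) + p = 1))) = xor a (decide (p = 1)) := by
  revert a b p
  decide

/-- the potential that dominates the sum of the costs -/
noncomputable def Psi (d r : ℕ) : ℝ :=
  8 * Real.log 2 * (((2 * d - 1 - (r % d : ℕ) : ℝ)) * (r / d : ℕ) + 2 * d) / 2 ^ (r / d)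

lemma psi_step (d r : ℕ) (hd : 1 ≤ d) :
    8 * Real.log 2 * ((r + 1) / d : ℕ) / 2 ^ ((r + 1) / d) + Psi d (r + 1) = Psi d r := by
  unfold Psi
  have hr := Nat.div_add_mod r d
  have hs : r % d < d := Nat.mod_lt _ (by omega)
  set j := r / d with hj
  set s := r % d with hsdef
  by_cases hlt : s + 1 < d
  · have h1 : (r + 1) / d = j := by
      rw [← hr]
      rw [show d * j + s + 1 = (s + 1) + d * j by ring, Nat.add_mul_div_left _ _ (by omega),
        Nat.div_eq_of_lt hlt, zero_add]
    have h2 : (r + 1) % d = s + 1 := by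
      rw [← hr]
      rw [show d * j + s + 1 = (s + 1) + d * j by ring, Nat.add_mul_mod_self_left,
        Nat.mod_eq_of_lt hlt]
    rw [h1, h2]
    push_cast
    ring
  · have h3 : s + 1 = d := by omega
    have h1 : (r + 1) / d = j + 1 := by
      rw [← hr]
      rw [show d * j + s + 1 = d * (j + 1) by rw [mul_add, mul_one, ← h3]; ring,
        Nat.mul_div_cancel_left _ (by omega)]
    have h2 : (r + 1) % d = 0 := by
      rw [← hr]
      rw [show d * j + s + 1 = d * (j + 1) by rw [mul_add, mul_one, ← h3]; ring,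
        Nat.mul_mod_right]
    rw [h1, h2]
    have h4 : (d : ℝ) = s + 1 := by rw [← h3]; push_cast; ring
    rw [h4, pow_succ]
    push_cast
    field_simp
    ring

lemma psi_nonneg (d r : ℕ) (hd : 1 ≤ d) : 0 ≤ Psi d r := by
  unfold Psi
  have hs : r % d < d := Nat.mod_lt _ (by omega)
  have h1 : ((r % d : ℕ) : ℝ) + 1 ≤ d := by exact_mod_cast hs
  have h2 : (0 : ℝ) ≤ 2 * d - 1 - (r % d : ℕ) := by
    have : (1 : ℝ) ≤ d := by exact_mod_cast hd
    linarith
  have h3 : 0 ≤ Real.log 2 := Real.log_nonneg (by norm_num)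
  positivity

lemma psi_le (d r : ℕ) (hd : 1 ≤ d) (hdr : d ≤ r) :
    Psi d r ≤ 32 * Real.log 2 * r / 2 ^ (r / d) := by
  unfold Psi
  refine div_le_div_of_nonneg_right ?_ (by positivity)
  have h3 : 0 ≤ Real.log 2 := Real.log_nonneg (by norm_num)
  have hs : r % d < d := Nat.mod_lt _ (by omega)
  have hr : (d : ℝ) * (r / d : ℕ) + (r % d : ℕ) = r := by exact_mod_cast Nat.div_add_mod r d
  have hj0 : (0 : ℝ) ≤ ((r / d : ℕ) : ℝ) := by positivity
  have hs0 : (0 : ℝ) ≤ ((r % d : ℕ) : ℝ) := by positivity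
  have hdr' : (d : ℝ) ≤ r := by exact_mod_cast hdr
  have h4 : (2 * d - 1 - (r % d : ℕ) : ℝ) * (r / d : ℕ) + 2 * d ≤ 4 * r := by
    have h5 : (2 * d - 1 - (r % d : ℕ) : ℝ) * (r / d : ℕ) ≤ 2 * d * (r / d : ℕ) :=
      mul_le_mul_of_nonneg_right (by linarith) hj0
    nlinarith
  calc 8 * Real.log 2 * ((2 * d - 1 - (r % d : ℕ) : ℝ) * (r / d : ℕ) + 2 * d)
      ≤ 8 * Real.log 2 * (4 * r) := mul_le_mul_of_nonneg_left h4 (by positivity)
    _ = _ := by ring

/-- the chain down to `k` coordinates -/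
theorem chain (f : (Fin n → ZMod 2) → Bool) (W : Finset (Fin n → ZMod 2))
    (c d k : ℕ) (hW : 2 ^ n ≤ 2 ^ c * W.card) (hd1 : 1 ≤ d)
    (hd : ∀ S : Finset (Fin n → ZMod 2),
      (∀ B ⊆ S, ∃ v ∈ W, ∀ y ∈ S, (f (v + y) = true ↔ y ∈ B)) → S.card ≤ d)
    (hkn : k ≤ n) (hk : 2 * d + c ≤ k) (b : Fin n → ZMod 2) :
    ∃ J : Finset (Fin n), J.card = k ∧ |P f b J - P f b univ| ≤ Psi d (k - c) := by
  classical
  have main : ∀ s : ℕ, s ≤ n - k → ∃ J : Finset (Fin n), J.card = n - s ∧
      |P f b J - P f b univ| ≤ Psi d (n - s - c) := by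
    intro s
    induction s with
    | zero =>
      intro _
      refine ⟨univ, by simp, ?_⟩
      rw [sub_self, abs_zero]
      exact psi_nonneg _ _ hd1
    | succ s ih =>
      intro hs
      obtain ⟨J, hJ, hJP⟩ := ih (Nat.le_of_succ_le hs)
      clear ih
      set r := n - s - c with hr
      have hr1 : n - (s + 1) - c + 1 = r := by omega
      have hrd : 2 * d ≤ r := by omega
      have hj2 : 2 ≤ r / d := (Nat.le_div_iff_mul_le (by omega)).2 (by omega)
      have hjd : r / d * d + c ≤ J.card := by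
        have := Nat.div_mul_le_self r d
        omega
      obtain ⟨t, ht, hstep⟩ := step f W c d hW hd1 hd J (r / d) hj2 hjd b
      refine ⟨J.erase t, by rw [Finset.card_erase_of_mem ht]; omega, ?_⟩
      have h1 := psi_step d (n - (s + 1) - c) hd1
      rw [hr1] at h1
      calc |P f b (J.erase t) - P f b univ|
          ≤ |P f b (J.erase t) - P f b J| + |P f b J - P f b univ| := abs_sub_le _ _ _
        _ ≤ 8 * Real.log 2 * (r / d : ℕ) / 2 ^ (r / d) + Psi d r := add_le_add hstep hJP
        _ = _ := h1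
  obtain ⟨J, hJ, hJP⟩ := main (n - k) le_rfl
  have h1 : n - (n - k) = k := by omega
  rw [h1] at hJ hJP
  exact ⟨J, hJ, hJP⟩

lemma P_of_const (f : (Fin n → ZMod 2) → Bool) (b : Fin n → ZMod 2) (J : Finset (Fin n))
    (v : Bool) (h : ∀ x ∈ cos b J, f x = v) : P f b J = sg v := by
  unfold P
  rw [Finset.sum_congr rfl fun x hx => by rw [h x hx], Finset.sum_const, card_cos, nsmul_eq_mul]
  push_cast
  field_simp

lemma P_univ (f : (Fin n → ZMod 2) → Bool) (b b' : Fin n → ZMod 2) :
    P f b univ = P f b' univ := by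
  unfold P
  have h : cos b univ = cos b' univ := by
    ext x; simp [mem_cos]
  rw [h]

/-- **Translates of a function that is `true` near `0` and `false` near `1`.** -/
theorem main (k c d : ℕ) (hkn : 2 * k < n) (f : (Fin n → ZMod 2) → Bool)
    (hnear : ∀ z : Fin n → ZMod 2, (univ.filter fun i => z i ≠ 0).card ≤ k → f z = true)
    (hfar : ∀ z : Fin n → ZMod 2, n - k ≤ (univ.filter fun i => z i ≠ 0).card → f z = false)
    (W : Finset (Fin n → ZMod 2)) (hW : 2 ^ n ≤ 2 ^ c * W.card) (hd1 : 1 ≤ d)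
    (hd : ∀ S : Finset (Fin n → ZMod 2),
      (∀ B ⊆ S, ∃ v ∈ W, ∀ y ∈ S, (f (v + y) = true ↔ y ∈ B)) → S.card ≤ d) :
    (k : ℝ) - c ≤ d * (Real.logb 2 k + 6) := by
  classical
  have hd0 : (1 : ℝ) ≤ d := by exact_mod_cast hd1
  have hlk : 0 ≤ Real.logb 2 k := by
    rcases Nat.eq_zero_or_pos k with h | h
    · simp [h]
    · exact Real.logb_nonneg (by norm_num) (by exact_mod_cast h)
  by_cases hk : 2 * d + c ≤ k
  swap
  · have h1 : (k : ℝ) ≤ 2 * d + c := by
      have : k ≤ 2 * d + c := by omega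
      exact_mod_cast this
    nlinarith
  obtain ⟨J0, hJ0, hP0⟩ := chain f W c d k hW hd1 hd (by omega) hk 0
  obtain ⟨J1, hJ1, hP1⟩ := chain f W c d k hW hd1 hd (by omega) hk 1
  have h0 : P f 0 J0 = 1 := by
    rw [P_of_const f 0 J0 true]
    · simp [sg]
    · intro x hx
      apply hnear
      rw [← hJ0]
      refine Finset.card_le_card fun i hi => ?_
      by_contra hi'
      exact (Finset.mem_filter.1 hi).2 (mem_cos.1 hx i hi')
  have h1 : P f 1 J1 = -1 := by
    rw [P_of_const f 1 J1 false]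
    · simp [sg]
    · intro x hx
      apply hfar
      have h2 : (univ \ J1).card = n - k := by
        rw [Finset.card_sdiff_of_subset (subset_univ _), hJ1, Finset.card_univ, Fintype.card_fin]
      rw [← h2]
      refine Finset.card_le_card fun i hi => ?_
      refine Finset.mem_filter.2 ⟨mem_univ _, ?_⟩
      rw [mem_cos.1 hx i (Finset.mem_sdiff.1 hi).2]
      simp
  rw [h0] at hP0
  rw [h1, P_univ f 1 0] at hP1
  have h2 : 1 ≤ Psi d (k - c) := by
    have e1 := (abs_le.1 hP0).2
    have e2 := (abs_le.1 hP1).1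
    linarith
  -- conclusion
  set r := k - c with hr
  have hdr : d ≤ r := by omega
  have h3 := h2.trans (psi_le d r hd1 hdr)
  have hlog2 : Real.log 2 < 0.6931471808 := Real.log_two_lt_d9
  have hr0 : (0 : ℝ) < r := by
    have : 0 < r := by omega
    exact_mod_cast this
  rw [le_div_iff₀ (by positivity), one_mul] at h3
  have h4 : (2 : ℝ) ^ (r / d) ≤ 2 ^ (5 : ℕ) * k := by
    have hrk : (r : ℝ) ≤ k := by
      have : r ≤ k := by omega
      exact_mod_cast this
    nlinarith
  have hk0 : (0 : ℝ) < k := by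
    have : 0 < k := by omega
    exact_mod_cast this
  have h5 : ((r / d : ℕ) : ℝ) ≤ 5 + Real.logb 2 k := by
    have h6 := Real.logb_le_logb_of_le (b := 2) (by norm_num) (by positivity) h4
    rw [Real.logb_pow, Real.logb_mul (by positivity) (by positivity), Real.logb_pow,
      Real.logb_self_eq_one (by norm_num)] at h6
    push_cast at h6
    linarith
  have h6 : (k : ℝ) - c = r := by
    rw [hr, Nat.cast_sub (by omega)]
  have h7 : (r : ℝ) ≤ d * ((r / d : ℕ) + 1) := by
    have hs : r % d < d := Nat.mod_lt _ (by omega)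
    have h8 := Nat.div_add_mod r d
    have h9 : r ≤ d * (r / d + 1) := by
      rw [mul_add, mul_one]; omega
    exact_mod_cast h9
  rw [h6]
  refine h7.trans (mul_le_mul_of_nonneg_left (by linarith) (by linarith))

end GHDXor
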